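import Pool.Agent.PQP.StmtsE

/-!
Row EXA of squad PQP: existence for a concentrated curvature function.
-/

set_option autoImplicit false

open scoped InnerProductSpace Topology ContDiff Manifold
open MeasureTheory Filter Set

noncomputable section

namespace Pool.Agent.PQP.H46

open Pool.Agent.Helper42_Paneitz Pool.Agent.Helper82_Vir Pool.Agent.FLX Pool.Agent.PQP

/-- powers are small near zero -/
theorem small (A p B : ℝ) (hp : 0 < p) (hB : 0 < B) :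
    ∃ s₁ : ℝ, 0 < s₁ ∧ ∀ s : ℝ, 0 < s → s ≤ s₁ → A * s ^ p < B := by
  have h : Tendsto (fun s : ℝ => A * s ^ p) (𝓝 0) (𝓝 (A * (0 : ℝ) ^ p)) :=
    (Real.continuousAt_rpow_const 0 p (Or.inr hp.le)).const_mul A |>.tendsto
  rw [Real.zero_rpow hp.ne', mul_zero] at h
  have h2 := h.eventually (gt_mem_nhds hB)
  rw [Metric.eventually_nhds_iff] at h2
  obtain ⟨d, hd, h3⟩ := h2
  refine ⟨d / 2, by positivity, fun s hs hs2 => h3 ?_⟩
  rw [Real.dist_eq, sub_zero, abs_of_pos hs]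
  linarith

/-- the partial inverse of `T` -/
theorem exL (p : S4) (T : E5 →L[ℝ] E5) (ρ : ℝ) (hG : Geo p T ρ) :
    ∃ L : E5 →L[ℝ] E5, L (p : E5) = 0 ∧ (∀ v : E5, ⟪(p : E5), v⟫_ℝ = 0 → L (T v) = v) ∧
      (∀ u : E5, ⟪(p : E5), L u⟫_ℝ = 0) ∧
      ∀ u : E5, L u = 0 → u = ⟪(p : E5), u⟫_ℝ • (p : E5) := by
  have hp1 : ‖(p : E5)‖ = 1 := by simp
  have hpp : ⟪(p : E5), (p : E5)⟫_ℝ = 1 := by
    rw [real_inner_self_eq_norm_sq, hp1]; norm_num
  have hpT : ∀ x : E5, ⟪(p : E5), T x⟫_ℝ = 0 := by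
    intro x
    rw [real_inner_comm, hG.symm, hG.zero, inner_zero_right]
  set T' : E5 →ₗ[ℝ] E5 :=
    { toFun := fun u => T u + ⟪(p : E5), u⟫_ℝ • (p : E5)
      map_add' := by
        intro u v
        rw [map_add, inner_add_right, add_smul]; abel
      map_smul' := by
        intro c u
        rw [map_smul, inner_smul_right, RingHom.id_apply, smul_add, smul_smul] } with hT'
  have hT'a : ∀ u, T' u = T u + ⟪(p : E5), u⟫_ℝ • (p : E5) := fun u => rfl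
  have hpT' : ∀ x : E5, ⟪(p : E5), T' x⟫_ℝ = ⟪(p : E5), x⟫_ℝ := by
    intro x
    rw [hT'a, inner_add_right, hpT, inner_smul_right, hpp]; ring
  have hinj : Function.Injective T' := by
    rw [injective_iff_map_eq_zero]
    intro u hu
    have h1 : ⟪(p : E5), u⟫_ℝ = 0 := by
      rw [← hpT' u, hu, inner_zero_right]
    have h2 : T u = 0 := by
      have := hT'a u
      rw [hu, h1, zero_smul, add_zero] at this
      exact this.symm
    exact hG.inj u h1 h2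
  set e : E5 ≃ₗ[ℝ] E5 := LinearEquiv.ofInjectiveEndo T' hinj with he
  have hea : ∀ u, e u = T' u := fun u => rfl
  have hes : ∀ u, e.symm (T' u) = u := by
    intro u
    rw [← hea, LinearEquiv.symm_apply_apply]
  have hTs : ∀ u, T' (e.symm u) = u := by
    intro u
    rw [← hea, LinearEquiv.apply_symm_apply]
  set S : E5 →L[ℝ] E5 := LinearMap.toContinuousLinearMap e.symm.toLinearMap with hS
  have hSa : ∀ u, S u = e.symm u := fun u => rfl
  have hTp : T' (p : E5) = (p : E5) := by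
    rw [hT'a, hG.zero, hpp]; simp
  have hSp : S (p : E5) = (p : E5) := by
    have := hes (p : E5)
    rw [hTp] at this
    rw [hSa]; exact this
  have hpS : ∀ u, ⟪(p : E5), S u⟫_ℝ = ⟪(p : E5), u⟫_ℝ := by
    intro u
    rw [hSa, ← hpT' (e.symm u), hTs]
  refine ⟨S - (innerSL ℝ (p : E5)).smulRight (p : E5), ?_, ?_, ?_, ?_⟩
  · simp [hSp, hpp]
  · intro v hv
    have h1 : T v = T' v := by rw [hT'a, hv, zero_smul, add_zero]
    have h2 : S (T v) = v := by rw [hSa, h1, hes]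
    simp [h2, hpT]
  · intro u
    simp [inner_sub_right, inner_smul_right, hpS]
  · intro u hu
    have h1 : S u = ⟪(p : E5), u⟫_ℝ • (p : E5) := by
      have : S u - ⟪(p : E5), u⟫_ℝ • (p : E5) = 0 := by simpa using hu
      exact sub_eq_zero.1 this
    have h2 : T' (S u) = u := by rw [hSa, hTs]
    rw [h1, map_smul, hTp] at h2
    exact h2.symm

/-- the factor of `wv` -/
theorem al (v : E5) (hv : ‖v‖ ≤ 1) :
    1 / 2 ≤ (√(1 + ‖v‖ ^ 2))⁻¹ ∧ (√(1 + ‖v‖ ^ 2))⁻¹ ≤ 1 := by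
  have h0 : 0 ≤ ‖v‖ := norm_nonneg v
  have h1 : 1 ≤ √(1 + ‖v‖ ^ 2) := by
    rw [Real.one_le_sqrt]
    nlinarith
  have h2 : √(1 + ‖v‖ ^ 2) ≤ 2 := by
    rw [Real.sqrt_le_left (by norm_num)]
    nlinarith
  constructor
  · rw [one_div]
    exact inv_anti₀ (by linarith) h2
  · exact inv_le_one_of_one_le₀ h1

theorem ww (p : S4) (v : E5) (hv : ⟪(p : E5), v⟫_ℝ = 0) :
    ⟪wv p v, wv p v⟫_ℝ = 1 ∧ ⟪wv p v, (p : E5)⟫_ℝ = (√(1 + ‖v‖ ^ 2))⁻¹ := by
  have hp1 : ‖(p : E5)‖ = 1 := by simp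
  have hpp : ⟪(p : E5), (p : E5)⟫_ℝ = 1 := by
    rw [real_inner_self_eq_norm_sq, hp1]; norm_num
  have hvp : ⟪v, (p : E5)⟫_ℝ = 0 := by rw [real_inner_comm]; exact hv
  have hs : 0 < √(1 + ‖v‖ ^ 2) := Real.sqrt_pos.2 (by positivity)
  have hss : √(1 + ‖v‖ ^ 2) * √(1 + ‖v‖ ^ 2) = 1 + ‖v‖ ^ 2 :=
    Real.mul_self_sqrt (by positivity)
  constructor
  · unfold wv
    rw [inner_smul_left, inner_smul_right, inner_add_left, inner_add_right, inner_add_right, hpp,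
      hv, hvp, real_inner_self_eq_norm_sq]
    simp only [conj_trivial]
    field_simp
    nlinarith
  · unfold wv
    rw [inner_smul_left, inner_add_left, hpp, hvp]
    simp

/-- the tangential estimate -/
theorem tang (p : S4) (T L : E5 →L[ℝ] E5) (ρ : ℝ) (hG : Geo p T ρ)
    (hL0 : L (p : E5) = 0) (hL1 : ∀ v : E5, ⟪(p : E5), v⟫_ℝ = 0 → L (T v) = v)
    (v b : E5) (hv : ⟪(p : E5), v⟫_ℝ = 0) (hv1 : ‖v‖ ≤ 1) (k j σ θ E c C₀ : ℝ) (hk : 0 < k)
    (hσ : 0 < σ) (hc : 0 < c) (hj1 : c ≤ j) (hj2 : j ≤ C₀) (hθ : θ = 1 / (2 * C₀)) (hE : 0 ≤ E)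
    (hb : ∀ e : E5, ⟪wv p v, e⟫_ℝ = 0 → ‖e‖ ≤ 1 →
      |⟪e, b⟫_ℝ + k * j * σ * ⟪T (wv p v), e⟫_ℝ| ≤ E) :
    ‖v + (θ / (k * σ)) • L (b - ⟪wv p v, b⟫_ℝ • wv p v)‖ ≤
      (1 - θ * c / 2) * ‖v‖ + 1 / 2 * (‖T‖ * ‖L‖) * ‖v‖ ^ 3 + θ / (k * σ) * (‖L‖ * E) := by
  obtain ⟨ha1, ha2⟩ := al v hv1
  obtain ⟨hw1, hw2⟩ := ww p v hv
  set α : ℝ := (√(1 + ‖v‖ ^ 2))⁻¹ with hα
  set w : E5 := wv p v with hw
  have hwe : w = α • ((p : E5) + v) := rfl
  have hTw : T w = α • T v := by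
    rw [hwe, map_smul, map_add, hG.zero, zero_add]
  have hLw : L w = α • L v := by
    rw [hwe, map_smul, map_add, hL0, zero_add]
  have hpT : ∀ x : E5, ⟪(p : E5), T x⟫_ℝ = 0 := by
    intro x
    rw [real_inner_comm, hG.symm, hG.zero, inner_zero_right]
  have hTww : ⟪T w, w⟫_ℝ = α ^ 2 * ⟪T v, v⟫_ℝ := by
    rw [hTw, hwe, inner_smul_left, inner_smul_right, inner_add_right, real_inner_comm (p : E5),
      hpT]
    simp only [conj_trivial]
    ring
  set b' : E5 := b - ⟪w, b⟫_ℝ • w with hb'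
  set z : E5 := T w - ⟪T w, w⟫_ℝ • w with hz
  have hwb' : ⟪w, b'⟫_ℝ = 0 := by
    rw [hb', inner_sub_right, inner_smul_right, hw1]; ring
  have hwz : ⟪w, z⟫_ℝ = 0 := by
    rw [hz, inner_sub_right, inner_smul_right, hw1, real_inner_comm w (T w)]; ring
  -- the error vector
  obtain ⟨r, hr⟩ : ∃ r : E5, r = b' + (k * j * σ) • z := ⟨_, rfl⟩
  have hwr : ⟪w, r⟫_ℝ = 0 := by
    rw [hr, inner_add_right, inner_smul_right, hwb', hwz]; ring
  have hrE : ‖r‖ ≤ E := by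
    by_cases h0 : r = 0
    · rw [h0, norm_zero]; exact hE
    · have hn : 0 < ‖r‖ := norm_pos_iff.2 h0
      have h1 := hb ((‖r‖)⁻¹ • r) (by rw [inner_smul_right, hwr]; ring)
        (by rw [norm_smul, norm_inv, norm_norm, inv_mul_cancel₀ hn.ne'])
      have h2 : ⟪(‖r‖)⁻¹ • r, b⟫_ℝ + k * j * σ * ⟪T w, (‖r‖)⁻¹ • r⟫_ℝ = ‖r‖ := by
        have e1 : ⟪r, b⟫_ℝ = ⟪r, b'⟫_ℝ := by
          rw [hb', inner_sub_right, inner_smul_right, real_inner_comm w r, hwr]; ring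
        have e2 : ⟪T w, r⟫_ℝ = ⟪z, r⟫_ℝ := by
          rw [hz, inner_sub_left, inner_smul_left, hwr]; simp
        have e3 : ⟪r, b'⟫_ℝ + k * j * σ * ⟪z, r⟫_ℝ = ‖r‖ ^ 2 := by
          have e4 : ⟪r, r⟫_ℝ = ⟪r, b' + (k * j * σ) • z⟫_ℝ := congrArg (fun x => ⟪r, x⟫_ℝ) hr
          rw [← real_inner_self_eq_norm_sq, e4, inner_add_right, inner_smul_right,
            real_inner_comm z r]
        rw [inner_smul_left, inner_smul_right, e1, e2]
        simp only [conj_trivial]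
        have : (‖r‖)⁻¹ * ⟪r, b'⟫_ℝ + k * j * σ * ((‖r‖)⁻¹ * ⟪z, r⟫_ℝ) =
            (‖r‖)⁻¹ * (⟪r, b'⟫_ℝ + k * j * σ * ⟪z, r⟫_ℝ) := by ring
        rw [this, e3]
        field_simp
      rw [h2, abs_of_pos hn] at h1
      exact h1
  have hLz : L z = α • v - (α ^ 3 * ⟪T v, v⟫_ℝ) • L v := by
    rw [hz, map_sub, map_smul, hLw, hTww, hTw, map_smul, hL1 v hv, smul_smul]
    congr 2
    ring
  have hb'r : b' = r - (k * j * σ) • z := by rw [hr]; abel
  have hC0 : 0 < C₀ := by linarith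
  have hθ0 : 0 < θ := by rw [hθ]; positivity
  have hθj : θ * j ≤ 1 / 2 := by
    rw [hθ]
    rw [div_mul_eq_mul_div, div_le_div_iff₀ (by positivity) (by norm_num)]
    linarith
  have hθc : θ * c ≤ θ * j := mul_le_mul_of_nonneg_left hj1 hθ0.le
  have key : v + (θ / (k * σ)) • L b' =
      (1 - θ * j * α) • v + (θ * j * α ^ 3 * ⟪T v, v⟫_ℝ) • L v + (θ / (k * σ)) • L r := by
    rw [hb'r, map_sub, map_smul, hLz]
    have hne : k * σ ≠ 0 := by positivity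
    have e1 : θ / (k * σ) * (k * j * σ) = θ * j := by field_simp
    rw [smul_sub, smul_smul, e1, smul_sub, smul_smul, smul_smul, sub_smul, one_smul]
    have e2 : θ * j * (α ^ 3 * ⟪T v, v⟫_ℝ) = θ * j * α ^ 3 * ⟪T v, v⟫_ℝ := by ring
    rw [e2]
    abel
  rw [key]
  have n1 : ‖(1 - θ * j * α) • v‖ ≤ (1 - θ * c / 2) * ‖v‖ := by
    rw [norm_smul]
    apply mul_le_mul_of_nonneg_right _ (norm_nonneg v)
    have hj0 : 0 ≤ θ * j := by nlinarith
    have h3 : θ * j * α ≤ 1 / 2 := by nlinarith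
    have h4 : θ * c / 2 ≤ θ * j * α := by nlinarith
    rw [Real.norm_of_nonneg (by linarith)]
    linarith
  have n2 : ‖(θ * j * α ^ 3 * ⟪T v, v⟫_ℝ) • L v‖ ≤ 1 / 2 * (‖T‖ * ‖L‖) * ‖v‖ ^ 3 := by
    rw [norm_smul]
    have h5 : |⟪T v, v⟫_ℝ| ≤ ‖T‖ * ‖v‖ * ‖v‖ :=
      (abs_real_inner_le_norm _ _).trans
        (mul_le_mul_of_nonneg_right (T.le_opNorm v) (norm_nonneg v))
    have h6 : ‖L v‖ ≤ ‖L‖ * ‖v‖ := L.le_opNorm v
    have h7 : α ^ 3 ≤ 1 := pow_le_one₀ (by linarith) ha2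
    have h8 : 0 ≤ α ^ 3 := by positivity
    have hj0 : 0 ≤ θ * j := by nlinarith
    have h9 : θ * j * α ^ 3 ≤ 1 / 2 := by nlinarith
    have h10 : 0 ≤ θ * j * α ^ 3 := by positivity
    have h11 : ‖θ * j * α ^ 3 * ⟪T v, v⟫_ℝ‖ ≤ 1 / 2 * (‖T‖ * ‖v‖ * ‖v‖) := by
      rw [Real.norm_eq_abs, abs_mul, abs_of_nonneg h10]
      exact mul_le_mul h9 h5 (abs_nonneg _) (by norm_num)
    calc _ ≤ 1 / 2 * (‖T‖ * ‖v‖ * ‖v‖) * (‖L‖ * ‖v‖) :=
          mul_le_mul h11 h6 (norm_nonneg _) (by positivity)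
      _ = _ := by ring
  have n3 : ‖(θ / (k * σ)) • L r‖ ≤ θ / (k * σ) * (‖L‖ * E) := by
    rw [norm_smul, Real.norm_of_nonneg (by positivity)]
    apply mul_le_mul_of_nonneg_left _ (by positivity)
    exact (L.le_opNorm r).trans (mul_le_mul_of_nonneg_left hrE (norm_nonneg L))
  calc _ ≤ ‖(1 - θ * j * α) • v + (θ * j * α ^ 3 * ⟪T v, v⟫_ℝ) • L v‖ + ‖(θ / (k * σ)) • L r‖ :=
        norm_add_le _ _
    _ ≤ ‖(1 - θ * j * α) • v‖ + ‖(θ * j * α ^ 3 * ⟪T v, v⟫_ℝ) • L v‖ +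
        ‖(θ / (k * σ)) • L r‖ := by
        gcongr
        exact norm_add_le _ _
    _ ≤ _ := by linarith

/-- row EXA -/
theorem exa (hB : BxaStmt) (hP : PmiStmt) : ExaStmt := by
  obtain ⟨c, C₀', hc, hB⟩ := hB
  intro p T ρ hG hT
  obtain ⟨L, hL0, hL1, hL2, hL3⟩ := exL p T ρ hG
  set C₀ : ℝ := max C₀' c with hC₀
  have hC0 : 0 < C₀ := lt_of_lt_of_le hc (le_max_right _ _)
  set τ : ℝ := |tr5 T| with hτ
  have hτ0 : 0 < τ := abs_pos.2 hT
  -- the choice of a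
  set m : ℝ := min (c * τ / 2) (min (1 / (2 * C₀ * τ)) (1 / 2)) with hm
  have hm0 : 0 < m := by
    rw [hm]
    refine lt_min (by positivity) (lt_min (by positivity) (by norm_num))
  set a : ℝ := √m with ha
  have ha0 : 0 < a := Real.sqrt_pos.2 hm0
  have haa : a ^ 2 = m := Real.sq_sqrt hm0.le
  have hm1 : m ≤ c * τ / 2 := min_le_left _ _
  have hm2 : m ≤ 1 / (2 * C₀ * τ) := (min_le_right _ _).trans (min_le_left _ _)
  have hm3 : m ≤ 1 / 2 := (min_le_right _ _).trans (min_le_right _ _)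
  have ha1 : a < 1 := by nlinarith
  have hm2' : C₀ * τ * m ≤ 1 / 2 := by
    have h1 : C₀ * τ * m ≤ C₀ * τ * (1 / (2 * C₀ * τ)) :=
      mul_le_mul_of_nonneg_left hm2 (by positivity)
    have h2 : C₀ * τ * (1 / (2 * C₀ * τ)) = 1 / 2 := by field_simp
    linarith
  obtain ⟨s₀, C, hs0, hs1, hsa, hC, hB⟩ := hB p T ρ hG a ha0 ha1
  set θ : ℝ := 1 / (2 * C₀) with hθ
  have hθ0 : 0 < θ := by rw [hθ]; positivity
  obtain ⟨t1, ht1, h1⟩ := small C (1 / 6) (m * (c * τ) / 2) (by norm_num) (by positivity)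
  obtain ⟨t2, ht2, h2⟩ := small C (1 / 6) (1 / (2 * m ^ 2)) (by norm_num) (by positivity)
  obtain ⟨t3, ht3, h3⟩ := small (1 / 2 * (‖T‖ * ‖L‖)) (3 / 2) (θ * c / 4) (by norm_num)
    (by positivity)
  obtain ⟨t4, ht4, h4⟩ := small (θ / a * (‖L‖ * C)) (5 / 12) (θ * c / 4) (by norm_num)
    (by positivity)
  refine ⟨min s₀ (min (min t1 t2) (min t3 t4)), lt_min hs0 (lt_min (lt_min ht1 ht2)
    (lt_min ht3 ht4)), ?_⟩
  intro q k B M s hCon hs hss hTG hk hkB hBB hMB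
  have e0 : s ≤ s₀ := hss.trans (min_le_left _ _)
  have e1 := h1 s hs (hss.trans ((min_le_right _ _).trans ((min_le_left _ _).trans
    (min_le_left _ _))))
  have e2 := h2 s hs (hss.trans ((min_le_right _ _).trans ((min_le_left _ _).trans
    (min_le_right _ _))))
  have e3 := h3 s hs (hss.trans ((min_le_right _ _).trans ((min_le_right _ _).trans
    (min_le_left _ _))))
  have e4 := h4 s hs (hss.trans ((min_le_right _ _).trans ((min_le_right _ _).trans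
    (min_le_right _ _))))
  obtain ⟨β, hβ, hB⟩ := hB q k B M s hCon hs e0 hk hkB hBB hMB
  have hk1 : 1 ≤ k := hCon.one
  have hk0 : 0 < k := by linarith
  have hs1' : s ≤ 1 := e0.trans hs1
  -- the sign
  obtain ⟨ε, hε1, hε2, hε3⟩ : ∃ ε : ℝ, |ε| = 1 ∧ ε * tr5 T = τ ∧
      ε * GG p ρ q = |GG p ρ q| := by
    rcases lt_or_gt_of_ne hT with h | h
    · refine ⟨-1, by norm_num, by rw [hτ, abs_of_neg h]; ring, ?_⟩
      have : GG p ρ q < 0 := by
        by_contra hcon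
        push Not at hcon
        nlinarith [mul_nonneg (neg_nonneg.2 h.le) hcon]
      rw [abs_of_neg this]; ring
    · refine ⟨1, by norm_num, by rw [hτ, abs_of_pos h]; ring, ?_⟩
      have : 0 < GG p ρ q := by
        by_contra hcon
        push Not at hcon
        nlinarith [mul_nonneg h.le (neg_nonneg.2 hcon)]
      rw [abs_of_pos this]; ring
  have hGk : |GG p ρ q| = k / s ^ 2 := by
    rw [← hk]; field_simp
  set r : ℝ := s ^ (3 / 4 : ℝ) with hr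
  have hr0 : 0 < r := Real.rpow_pos_of_pos hs _
  have hr1 : r ≤ 1 := Real.rpow_le_one hs.le hs1' (by norm_num)
  have p136 : s ^ (13 / 6 : ℝ) = s ^ 2 * s ^ (1 / 6 : ℝ) := by
    rw [← Real.rpow_natCast s 2, ← Real.rpow_add hs]; norm_num
  have hp16 : 0 < s ^ (1 / 6 : ℝ) := Real.rpow_pos_of_pos hs _
  have hss2 : 0 < s ^ 2 := by positivity
  have hab : a * s < s / a := by
    rw [lt_div_iff₀ ha0]
    nlinarith
  -- the radial function
  have hR : ∀ (σ : ℝ) (v : E5), a * s ≤ σ → σ ≤ s / a → ⟪(p : E5), v⟫_ℝ = 0 → ‖v‖ ≤ r →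
      ∃ j : ℝ, c ≤ j ∧ j ≤ C₀ ∧ |ε * ⟪wv p v, β (bv p σ v)⟫_ℝ -
        (k * τ * j * σ ^ 2 - σ ^ 4 * (k / s ^ 2))| ≤ C * k * s ^ (13 / 6 : ℝ) := by
    intro σ v hσ1 hσ2 hv hvr
    obtain ⟨-, j₁, j₂, hj1, hj2, hj3, hj4, h5, h6⟩ := hB σ v hσ1 hσ2 hv hvr
    refine ⟨j₁, hj1, hj2.trans (le_max_left _ _), ?_⟩
    have e5 : ε * ⟪wv p v, β (bv p σ v)⟫_ℝ - (k * τ * j₁ * σ ^ 2 - σ ^ 4 * (k / s ^ 2)) =
        ε * (⟪wv p v, β (bv p σ v)⟫_ℝ - (k * tr5 T * j₁ * σ ^ 2 - σ ^ 4 * GG p ρ q)) := by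
      rw [← hGk, ← hε3, ← hε2]; ring
    rw [e5, abs_mul, hε1, one_mul]
    exact h5
  -- continuity
  have hcw : Continuous (fun z : ℝ × E5 => wv p z.2) := by
    unfold wv
    refine Continuous.smul (f := fun z : ℝ × E5 => (√(1 + ‖z.2‖ ^ 2))⁻¹)
      (g := fun z : ℝ × E5 => (p : E5) + z.2) ?_ ?_
    · apply Continuous.inv₀ (by fun_prop)
      intro z
      have : 0 < √(1 + ‖z.2‖ ^ 2) := Real.sqrt_pos.2 (by positivity)
      exact this.ne'
    · fun_prop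
  have hcb : Continuous (fun z : ℝ × E5 => bv p z.1 z.2) := by
    unfold bv
    exact (by fun_prop : Continuous (fun z : ℝ × E5 => √(1 - z.1 ^ 2))).smul hcw
  have hcβ : ContinuousOn (fun z : ℝ × E5 => β (bv p z.1 z.2))
      {z | a * s ≤ z.1 ∧ z.1 ≤ s / a ∧ ⟪(p : E5), z.2⟫_ℝ = 0 ∧ ‖z.2‖ ≤ r} := by
    apply hβ.comp hcb.continuousOn
    rintro ⟨σ, v⟩ ⟨h5, h6, h7, h8⟩
    exact ⟨σ, v, h5, h6, h7, h8, rfl⟩
  have hci : ContinuousOn (fun z : ℝ × E5 => ⟪wv p z.2, β (bv p z.1 z.2)⟫_ℝ)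
      {z | a * s ≤ z.1 ∧ z.1 ≤ s / a ∧ ⟪(p : E5), z.2⟫_ℝ = 0 ∧ ‖z.2‖ ≤ r} :=
    hcw.continuousOn.inner hcβ
  obtain ⟨σ, v, hσ1, hσ2, hv, hvr, hR0, hV0⟩ := hP (p : E5) (a * s) (s / a) r
    (fun σ v => ε * ⟪wv p v, β (bv p σ v)⟫_ℝ)
    (fun σ v => (θ / (k * σ)) • L (β (bv p σ v) - ⟪wv p v, β (bv p σ v)⟫_ℝ • wv p v))
    hab hr0 (continuousOn_const.mul hci)
    (by
      refine ContinuousOn.smul (f := fun z : ℝ × E5 => θ / (k * z.1))
        (g := fun z : ℝ × E5 => L (β (bv p z.1 z.2) -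
          ⟪wv p z.2, β (bv p z.1 z.2)⟫_ℝ • wv p z.2)) ?_ ?_
      · apply ContinuousOn.div continuousOn_const (by fun_prop)
        rintro ⟨σ, v⟩ ⟨h5, -⟩
        have : 0 < σ := lt_of_lt_of_le (by positivity) h5
        positivity
      · exact L.continuous.comp_continuousOn (hcβ.sub (hci.smul hcw.continuousOn)))
    (by
      intro v hv hvr
      constructor
      · obtain ⟨j, hj1, hj2, h5⟩ := hR (a * s) v le_rfl hab.le hv hvr
        have h6 := (abs_le.1 h5).1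
        have h7 : k * τ * j * (a * s) ^ 2 - (a * s) ^ 4 * (k / s ^ 2) =
            k * s ^ 2 * (m * (τ * j - m)) := by
          have : (a * s) ^ 4 * (k / s ^ 2) = k * s ^ 2 * (a ^ 2) ^ 2 := by
            field_simp
          rw [this, ← haa]; ring
        rw [h7, p136] at h6
        have h8 : m * (c * τ) / 2 ≤ m * (τ * j - m) := by
          have : c * τ ≤ τ * j := by nlinarith
          nlinarith
        have h9 : k * s ^ 2 * (C * s ^ (1 / 6 : ℝ)) < k * s ^ 2 * (m * (τ * j - m)) :=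
          mul_lt_mul_of_pos_left (lt_of_lt_of_le e1 h8) (by positivity)
        have h10 : C * k * (s ^ 2 * s ^ (1 / 6 : ℝ)) = k * s ^ 2 * (C * s ^ (1 / 6 : ℝ)) := by ring
        show 0 < ε * ⟪wv p v, β (bv p (a * s) v)⟫_ℝ
        linarith
      · obtain ⟨j, hj1, hj2, h5⟩ := hR (s / a) v hab.le le_rfl hv hvr
        have h6 := (abs_le.1 h5).2
        have h7 : k * τ * j * (s / a) ^ 2 - (s / a) ^ 4 * (k / s ^ 2) =
            k * s ^ 2 * ((τ * j * m - 1) / m ^ 2) := by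
          have : (s / a) ^ 4 * (k / s ^ 2) = k * s ^ 2 / (a ^ 2) ^ 2 := by
            field_simp
          rw [this, ← haa]
          field_simp
        rw [h7, p136] at h6
        have h8 : (τ * j * m - 1) / m ^ 2 ≤ -(1 / (2 * m ^ 2)) := by
          have h9 : τ * j * m ≤ C₀ * τ * m := by
            have : τ * j ≤ C₀ * τ := by nlinarith
            nlinarith
          rw [div_le_iff₀ (by positivity)]
          have : -(1 / (2 * m ^ 2)) * m ^ 2 = -(1 / 2) := by field_simp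
          rw [this]
          linarith
        have h9 : k * s ^ 2 * (C * s ^ (1 / 6 : ℝ)) < k * s ^ 2 * (-((τ * j * m - 1) / m ^ 2)) :=
          mul_lt_mul_of_pos_left (by linarith) (by positivity)
        have h10 : C * k * (s ^ 2 * s ^ (1 / 6 : ℝ)) = k * s ^ 2 * (C * s ^ (1 / 6 : ℝ)) := by ring
        show ε * ⟪wv p v, β (bv p (s / a) v)⟫_ℝ < 0
        linarith)
    (by
      intro σ v hσ1 hσ2 hv hvr
      constructor
      · show ⟪(p : E5), (θ / (k * σ)) • L (β (bv p σ v) -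
          ⟪wv p v, β (bv p σ v)⟫_ℝ • wv p v)⟫_ℝ = 0
        rw [inner_smul_right, hL2, mul_zero]
      · obtain ⟨-, j₁, j₂, hj1, hj2, hj3, hj4, h5, h6⟩ := hB σ v hσ1 hσ2 hv hvr
        have hσ0 : 0 < σ := lt_of_lt_of_le (by positivity) hσ1
        have h7 := tang p T L ρ hG hL0 hL1 v (β (bv p σ v)) hv (hvr.trans hr1) k j₂ σ θ
          (C * k * s ^ (13 / 6 : ℝ)) c C₀ hk0 hσ0 hc hj3 (hj4.trans (le_max_left _ _)) hθ
          (by positivity) h6
        refine h7.trans ?_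
        have hvn : 0 ≤ ‖v‖ := norm_nonneg v
        have hθc : θ * c / 2 ≤ 1 := by
          have : θ * c ≤ θ * C₀ := mul_le_mul_of_nonneg_left (le_max_right _ _) hθ0.le
          have h8 : θ * C₀ = 1 / 2 := by rw [hθ]; field_simp
          linarith
        have q1 : (1 - θ * c / 2) * ‖v‖ ≤ (1 - θ * c / 2) * r :=
          mul_le_mul_of_nonneg_left hvr (by linarith)
        have hr3 : r ^ 3 = r * s ^ (3 / 2 : ℝ) := by
          rw [hr, ← Real.rpow_natCast, ← Real.rpow_mul hs.le, ← Real.rpow_add hs]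
          norm_num
        have q2 : 1 / 2 * (‖T‖ * ‖L‖) * ‖v‖ ^ 3 ≤ r * (θ * c / 4) := by
          have : ‖v‖ ^ 3 ≤ r ^ 3 := pow_le_pow_left₀ hvn hvr 3
          calc _ ≤ 1 / 2 * (‖T‖ * ‖L‖) * r ^ 3 := mul_le_mul_of_nonneg_left this (by positivity)
            _ = r * (1 / 2 * (‖T‖ * ‖L‖) * s ^ (3 / 2 : ℝ)) := by rw [hr3]; ring
            _ ≤ _ := mul_le_mul_of_nonneg_left e3.le hr0.le
        have q3 : θ / (k * σ) * (‖L‖ * (C * k * s ^ (13 / 6 : ℝ))) ≤ r * (θ * c / 4) := by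
          have h8 : s ^ (13 / 6 : ℝ) = s * (r * s ^ (5 / 12 : ℝ)) := by
            rw [hr, ← Real.rpow_add hs]
            nth_rewrite 2 [← Real.rpow_one s]
            rw [← Real.rpow_add hs]
            norm_num
          have hp : 0 < s ^ (5 / 12 : ℝ) := Real.rpow_pos_of_pos hs _
          calc θ / (k * σ) * (‖L‖ * (C * k * s ^ (13 / 6 : ℝ)))
              = θ / σ * (‖L‖ * C) * s ^ (13 / 6 : ℝ) := by field_simp
            _ ≤ θ / (a * s) * (‖L‖ * C) * s ^ (13 / 6 : ℝ) := by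
                apply mul_le_mul_of_nonneg_right _ (by positivity)
                apply mul_le_mul_of_nonneg_right _ (by positivity)
                exact div_le_div_of_nonneg_left hθ0.le (by positivity) hσ1
            _ = r * (θ / a * (‖L‖ * C) * s ^ (5 / 12 : ℝ)) := by
                rw [h8]; field_simp
            _ ≤ _ := mul_le_mul_of_nonneg_left e4.le hr0.le
        nlinarith)
  -- the zero
  have hσ0 : 0 < σ := lt_of_lt_of_le (by positivity) hσ1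
  obtain ⟨hz, -⟩ := hB σ v hσ1 hσ2 hv hvr
  apply hz
  have hε0 : ε ≠ 0 := by
    intro h; rw [h] at hε1; norm_num at hε1
  have z1 : ⟪wv p v, β (bv p σ v)⟫_ℝ = 0 := by
    rcases mul_eq_zero.1 hR0 with h | h
    · exact absurd h hε0
    · exact h
  have z2 : L (β (bv p σ v)) = 0 := by
    have h5 : (θ / (k * σ)) • L (β (bv p σ v) - ⟪wv p v, β (bv p σ v)⟫_ℝ • wv p v) = 0 := hV0
    rw [z1, zero_smul, sub_zero] at h5
    rcases smul_eq_zero.1 h5 with h | h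
    · exact absurd h (by positivity)
    · exact h
  have z3 := hL3 _ z2
  obtain ⟨hw1, hw2⟩ := ww p v hv
  rw [z3, inner_smul_right, hw2] at z1
  have hα : 0 < (√(1 + ‖v‖ ^ 2))⁻¹ := by
    have : 0 < √(1 + ‖v‖ ^ 2) := Real.sqrt_pos.2 (by positivity)
    positivity
  rcases mul_eq_zero.1 z1 with h | h
  · rw [z3, h, zero_smul]
  · exact absurd h hα.ne'

end Pool.Agent.PQP.H46
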